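import Pool.Agent.Q161.ESV.Stm1
import Pool.Agent.Q238.ESN.QR
import Pool.Agent.Q224.ESG.LJG

/-! Project ESV (helper161), job LOCV (helper18): the local conditions for the products (compare `Pool/Agent/Q238/ESN/LJG.lean`). -/

set_option autoImplicit false

namespace Pool.Agent.Q18.ESV

open NumberField IsDedekindDomain Finset
open Pool.Agent.Q161.ESV
open Pool.Agent.Q51.EL (Abv Par)
open Pool.Agent.Q124.ESM (mem_of_val_lt val_one exp_neg_lt)
open Pool.Agent.Q224.ESG (qr_unit cne)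
open Pool.Agent.Q238.ESN (qr_of)

theorem z2' (x : ZMod 2) : x = 0 ∨ x = 1 := by revert x; decide

/-- linear forms separate the elements -/
theorem sep {V : Type} [AddCommGroup V] [Fintype V] (h2 : ∀ v : V, v + v = 0) {v : V}
    (h : ∀ χ : V →+ ZMod 2, χ v = 0) : v = 0 := by
  letI : Module (ZMod 2) V := AddCommGroup.zmodModule fun x => by rw [two_nsmul]; exact h2 x
  refine (Module.forall_dual_apply_eq_zero_iff (ZMod 2) v).1 fun f => ?_
  exact h f.toAddMonoidHom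

theorem par_uniq {K : Type} [Field K] [NumberField K] {w : HeightOneSpectrum (𝓞 K)} {x : K} {a b : ZMod 2}
    (ha : Par w x a.val) (hb : Par w x b.val) : a = b := by
  obtain ⟨k, hk⟩ := ha
  obtain ⟨k', hk'⟩ := hb
  rw [hk, WithZero.exp_inj] at hk'
  rcases z2' a with rfl | rfl <;> rcases z2' b with rfl | rfl
  · rfl
  · exfalso
    have h0 : (((0 : ZMod 2).val : ℕ) : ℤ) = 0 := rfl
    have h1 : (((1 : ZMod 2).val : ℕ) : ℤ) = 1 := rfl
    rw [h0, h1] at hk'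
    omega
  · exfalso
    have h0 : (((0 : ZMod 2).val : ℕ) : ℤ) = 0 := rfl
    have h1 : (((1 : ZMod 2).val : ℕ) : ℤ) = 1 := rfl
    rw [h0, h1] at hk'
    omega
  · rfl

section

variable {F K : Type} [Field F] [NumberField F] [Field K] [NumberField K] [Algebra F K]
  {V : Type} [AddCommGroup V] [Fintype V] [DistribMulAction (K ≃ₐ[F] K) V]

theorem ty_uniq (h2 : ∀ v : V, v + v = 0) {w : HeightOneSpectrum (𝓞 K)} {Δ : (V →+ ZMod 2) → K} {s t : V}
    (hs : TyV w Δ s) (ht : TyV w Δ t) : s = t := by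
  rw [← sub_eq_zero]
  refine sep h2 fun χ => ?_
  rw [map_sub, sub_eq_zero]
  exact par_uniq (hs χ) (ht χ)

theorem mem_iff {B : ℕ} {D : 𝓞 F} {Δ : (V →+ ZMod 2) → K} {Z : V → 𝓞 K} (h : RV0 B D Δ Z) {l : ℕ}
    (hl : l.Prime) (hB : ¬ l ∣ B) {w : HeightOneSpectrum (𝓞 K)} (hw : Abv w l) (t : V) :
    Z t ∈ w.asIdeal ↔ iO F K D ∈ w.asIdeal ∧ TyV w Δ t := by
  rw [← mem_of_val_lt]
  by_cases h1 : iO F K D ∈ w.asIdeal ∧ TyV w Δ t
  · rw [(h.typ l hl hB w hw t).1 h1]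
    exact ⟨fun _ => h1, fun _ => exp_neg_lt⟩
  · rw [(h.typ l hl hB w hw t).2 h1]
    exact ⟨fun h' => absurd h' (lt_irrefl _), fun h' => absurd h' h1⟩

end

/-- **LOCV** -/
theorem locv : S_LOCV := by
  classical
  intro F K _ _ _ _ _ _ V _ _ _ h2V
  obtain ⟨B0, hB0, hfr⟩ := Pool.Agent.Q224.ESM.frx K
  refine ⟨B0 * 2, by positivity, ?_⟩
  intro B hB hB0' μ a hμ ha D D' Δ Δ' Z Z' hz hz' hRl l hl hlB w φ hw hFb t ht ht'
  have d1 : B0 ∣ B := (Dvd.intro _ rfl).trans hB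
  have d2 : 2 ∣ B := (Dvd.intro_left _ rfl).trans hB
  have hl2 : l ≠ 2 := by
    rintro rfl
    exact hlB d2
  have hsq : Squarefree (Ideal.span {(l : 𝓞 K)}) := (hfr l hl fun h => hlB (h.trans d1)).1
  -- the type
  obtain ⟨hlD, htp⟩ := (mem_iff hz.rel hl hlB hw t).1 ht
  obtain ⟨hlD', htp'⟩ := (mem_iff hz'.rel hl hlB hw t).1 ht'
  have hzs : ∀ {D : 𝓞 F} {Δ : (V →+ ZMod 2) → K} {Z : V → 𝓞 K}, RV B μ a D Δ Z →
      Z t ∈ w.asIdeal → ∀ s, s ≠ t → Z s ∉ w.asIdeal := by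
    intro D Δ Z hz ht s hs hm
    have h2 := ((mem_iff hz.rel hl hlB hw t).1 ht).2
    have h3 := ((mem_iff hz.rel hl hlB hw s).1 hm).2
    exact hs (ty_uniq h2V h3 h2)
  have hφt : φ • t = t := by
    obtain ⟨t0, ht0, ht1⟩ := hz.rel.kd.odd l hl hlB w hw hlD
    have : t0 = t := ty_uniq h2V ht0 htp
    rw [← this]
    exact ht1 φ hFb
  refine ⟨hφt, hzs hz ht, fun χ hχ => ?_⟩
  have htw : tw φ χ = χ := by
    ext s
    exact hχ s
  have hG := hRl l hl hlB w hw hlD hlD' t htp htp' φ hFb χ htw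
  -- the set of the `s`
  let T : Finset V := univ.filter (fun s => χ (s - t) ≠ 0)
  have hT : ∀ s ∈ T, s ≠ t := by
    rintro s hs rfl
    have h1 := (mem_filter.1 hs).2
    apply h1
    rw [sub_self, map_zero]
  have hPu : ∀ {D : 𝓞 F} {Δ : (V →+ ZMod 2) → K} {Z : V → 𝓞 K}, RV B μ a D Δ Z →
      Z t ∈ w.asIdeal → w.valuation K (∏ s ∈ T, (Z s : K)) = 1 := by
    intro D Δ Z hz ht
    rw [map_prod]
    exact prod_eq_one fun s hs => val_one (hzs hz ht s (hT s hs))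
  have hPP : w.valuation K ((∏ s ∈ T, (Z s : K)) * ∏ s ∈ T, (Z' s : K)) = 1 := by
    rw [map_mul, hPu hz ht, hPu hz' ht', one_mul]
  have hcast : ((∏ s ∈ T, Z s * Z' s : 𝓞 K) : K) =
      (∏ s ∈ T, (Z s : K)) * ∏ s ∈ T, (Z' s : K) := by
    change algebraMap (𝓞 K) K _ = _
    rw [map_prod, ← prod_mul_distrib]
    refine prod_congr rfl fun s _ => ?_
    rw [map_mul]
  suffices hQR : Pool.Agent.Q161.ESM.QR w l ((∏ s ∈ T, (Z s : K)) * ∏ s ∈ T, (Z' s : K)) by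
    have h1 := qr_unit hl hl2 hsq hw hQR hPP
    rw [← hcast] at h1
    rw [← mem_of_val_lt]
    have h2 : (((∏ s ∈ T, Z s * Z' s) ^ ((l - 1) / 2) - 1 : 𝓞 K) : K) =
        ((∏ s ∈ T, Z s * Z' s : 𝓞 K) : K) ^ ((l - 1) / 2) - 1 := by
      change algebraMap (𝓞 K) K _ = _
      rw [map_sub, map_pow, map_one]
    change w.valuation K (((∏ s ∈ T, Z s * Z' s) ^ ((l - 1) / 2) - 1 : 𝓞 K) : K) < 1
    rw [h2]
    exact h1
  -- the parts
  let P0 : (V → 𝓞 K) → K := fun Z => ∏ s ∈ univ.filter (fun s => χ s = 1), (Z s : K)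
  have hfixΔ : ∀ {D : 𝓞 F} {Δ : (V →+ ZMod 2) → K} {Z : V → 𝓞 K}, RV B μ a D Δ Z → φ (Δ χ) = Δ χ := by
    intro D Δ Z hz
    have := hz.rel.kd.eqv φ χ
    rwa [htw] at this
  obtain ⟨q, hq0, hqf, e1⟩ := hz.qa χ
  obtain ⟨q', hq0', hqf', e1'⟩ := hz'.qa χ
  have e1 : Δ χ * P0 Z = a χ * q ^ 2 := e1
  have e1' : Δ' χ * P0 Z' = a χ * q' ^ 2 := e1'
  have hq := hqf φ htw
  have hq' := hqf' φ htw
  obtain ⟨ha0, haf⟩ := ha χ
  have haφ := haf φ htw
  have hD0 : algebraMap F K (D : F) ≠ 0 := (_root_.map_ne_zero _).2 (cne hz.rel.kd.sq.1)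
  have hD0' : algebraMap F K (D' : F) ≠ 0 := (_root_.map_ne_zero _).2 (cne hz'.rel.kd.sq.1)
  have hΔ0 : Δ χ ≠ 0 := hz.rel.kd.ne χ
  have hΔ0' : Δ' χ ≠ 0 := hz'.rel.kd.ne χ
  rcases z2' (χ t) with h0 | h0
  · -- `χ t = 0`
    have hTP : T = univ.filter (fun s => χ s = 1) := by
      ext s
      rw [mem_filter, mem_filter, map_sub, h0, sub_zero]
      have h3 : ∀ x : ZMod 2, x ≠ 0 ↔ x = 1 := by decide
      rw [h3]
    rw [hTP]
    rw [if_neg (by rw [h0]; decide), mul_one] at hG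
    change Pool.Agent.Q161.ESM.QR w l (P0 Z * P0 Z')
    refine qr_of hl hl2 hsq hw hFb hG (mul_ne_zero hΔ0 hΔ0') (X1 := 1) (X2 := a χ * q * q') (map_one φ)
      one_ne_zero ?_ (mul_ne_zero (mul_ne_zero ha0 hq0) hq0') ?_
    · rw [map_mul, map_mul, haφ, hq, hq']
    · calc P0 Z * P0 Z' * (Δ χ * Δ' χ) * 1 ^ 2 = (Δ χ * P0 Z) * (Δ' χ * P0 Z') := by ring
        _ = _ := by rw [e1, e1']; ring
  · -- `χ t = 1`
    have hTP : ∀ Z : V → 𝓞 K, (∏ s ∈ T, (Z s : K)) * P0 Z = ∏ s, (Z s : K) := by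
      intro Z
      have h1 : T = univ.filter (fun s => ¬ χ s = 1) := by
        ext s
        rw [mem_filter, mem_filter, map_sub, h0]
        have h3 : ∀ x : ZMod 2, x - 1 ≠ 0 ↔ ¬ x = 1 := by decide
        rw [h3]
      rw [h1, mul_comm]
      exact prod_filter_mul_prod_filter_not univ (fun s => χ s = 1) (fun s => (Z s : K))
    rw [if_pos h0] at hG
    obtain ⟨s, hs0, e2⟩ := hz.qd
    obtain ⟨s', hs0', e2'⟩ := hz'.qd
    rw [← hTP] at e2 e2'
    have hsK : (algebraMap F K s) ≠ 0 := (_root_.map_ne_zero _).2 hs0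
    have hsK' : (algebraMap F K s') ≠ 0 := (_root_.map_ne_zero _).2 hs0'
    have hμK : (algebraMap F K μ) ≠ 0 := (_root_.map_ne_zero _).2 hμ
    have hDD : algebraMap F K ((D : F) * (D' : F)) = algebraMap F K (D : F) * algebraMap F K (D' : F) := map_mul _ _ _
    rw [hDD] at hG
    refine qr_of hl hl2 hsq hw hFb hG (mul_ne_zero (mul_ne_zero hΔ0 hΔ0') (mul_ne_zero hD0 hD0'))
      (X1 := a χ * q * q') (X2 := algebraMap F K μ * algebraMap F K s * algebraMap F K s' * (Δ χ * Δ' χ)) ?_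
      (mul_ne_zero (mul_ne_zero ha0 hq0) hq0') ?_
      (mul_ne_zero (mul_ne_zero (mul_ne_zero hμK hsK) hsK') (mul_ne_zero hΔ0 hΔ0')) ?_
    · rw [map_mul, map_mul, haφ, hq, hq']
    · rw [map_mul, map_mul, map_mul, map_mul, φ.commutes, φ.commutes, φ.commutes, hfixΔ hz, hfixΔ hz']
    · have h4 : algebraMap F K (μ * s ^ 2) = algebraMap F K μ * algebraMap F K s ^ 2 := by rw [map_mul, map_pow]
      have h5 : algebraMap F K (μ * s' ^ 2) = algebraMap F K μ * algebraMap F K s' ^ 2 := by rw [map_mul, map_pow]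
      rw [h4] at e2
      rw [h5] at e2'
      generalize (∏ s ∈ T, (Z s : K)) = P at *
      generalize (∏ s ∈ T, (Z' s : K)) = P' at *
      calc _ = P * P' * (Δ χ * Δ' χ * (algebraMap F K (D : F) * algebraMap F K (D' : F))) *
            ((a χ * q ^ 2) * (a χ * q' ^ 2)) := by ring
        _ = (algebraMap F K (D : F) * (P * P0 Z)) * (algebraMap F K (D' : F) * (P' * P0 Z')) *
            (Δ χ * Δ' χ) ^ 2 := by rw [← e1, ← e1']; ring
        _ = _ := by rw [e2, e2']; ring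

end Pool.Agent.Q18.ESV
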